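import Pool.Agent.W312.TP.Stm2

/-!
# TP-VNP: well formed connected instances are in NP
-/

set_option autoImplicit false

namespace Pool.Agent.W214.TP

open Pool.Agent.NPC Pool.Agent.H673R2 Pool.Agent.H673R2.Ts Pool.Agent.W312.TP

/-- the parent -/
def pa (w : List (ℕ × ℕ)) (x : ℕ) : ℕ := (w.getD x (0, 0)).1

/-- the level -/
def lv (w : List (ℕ × ℕ)) (x : ℕ) : ℕ := (w.getD x (0, 0)).2

/-- the test -/
def tst (p : Inst × List (ℕ × ℕ)) : Bool :=
  ((List.range p.1.2.length).all fun j => (List.range p.1.2.length).all fun i =>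
    (!(decide (i < j))) || (!(decide (p.1.2[i]? = p.1.2[j]?)))) &&
  ((p.1.2.all fun e => decide (e.1 < e.2) && decide (e.2 < p.1.1)) &&
  (decide (0 < p.1.1) && (decide (p.1.1 ≤ p.1.2.length + 1) &&
  ((List.range (min p.1.1 (p.1.2.length + 1))).all fun x => decide (x = 0) ||
    ((decide ((x, pa p.2 x) ∈ p.1.2) || decide ((pa p.2 x, x) ∈ p.1.2)) &&
      decide (lv p.2 (pa p.2 x) < lv p.2 x))))))

theorem poly_pa {α : Type} [TEnc α] {w : α → List (ℕ × ℕ)} {x : α → ℕ} (hw : Poly w)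
    (hx : Poly x) : Poly (fun a => pa (w a) (x a)) :=
  Poly.fst (Poly.getD hw hx (NPC.Poly.const (0, 0)))

theorem poly_lv {α : Type} [TEnc α] {w : α → List (ℕ × ℕ)} {x : α → ℕ} (hw : Poly w)
    (hx : Poly x) : Poly (fun a => lv (w a) (x a)) :=
  Poly.snd (Poly.getD hw hx (NPC.Poly.const (0, 0)))

theorem poly_tst : Poly tst := by
  have hE : Poly (fun p : Inst × List (ℕ × ℕ) => p.1.2) := Poly.snd (Poly.fst Poly.id)
  have hn : Poly (fun p : Inst × List (ℕ × ℕ) => p.1.1) := Poly.fst (Poly.fst Poly.id)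
  have hw : Poly (fun p : Inst × List (ℕ × ℕ) => p.2) := Poly.snd Poly.id
  have hr : Poly (fun p : Inst × List (ℕ × ℕ) => List.range p.1.2.length) :=
    Poly.range_length hE
  have h1 : Poly (fun p : Inst × List (ℕ × ℕ) => (List.range p.1.2.length).all fun j =>
      (List.range p.1.2.length).all fun i =>
        (!(decide (i < j))) || (!(decide (p.1.2[i]? = p.1.2[j]?)))) := by
    refine Poly.all (p := fun (p : Inst × List (ℕ × ℕ)) (j : ℕ) =>
      (List.range p.1.2.length).all fun i =>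
        (!(decide (i < j))) || (!(decide (p.1.2[i]? = p.1.2[j]?)))) hr ?_
    refine Poly.all (l := fun x : (Inst × List (ℕ × ℕ)) × ℕ => List.range x.1.1.2.length)
      (p := fun (x : (Inst × List (ℕ × ℕ)) × ℕ) (i : ℕ) =>
        (!(decide (i < x.2))) || (!(decide (x.1.1.2[i]? = x.1.1.2[x.2]?))))
      (hr.comp (Poly.fst Poly.id)) ?_
    have hj : Poly (fun y : ((Inst × List (ℕ × ℕ)) × ℕ) × ℕ => y.1.2) :=
      Poly.snd (Poly.fst Poly.id)
    have hi : Poly (fun y : ((Inst × List (ℕ × ℕ)) × ℕ) × ℕ => y.2) := Poly.snd Poly.id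
    have hE' : Poly (fun y : ((Inst × List (ℕ × ℕ)) × ℕ) × ℕ => y.1.1.1.2) :=
      hE.comp (Poly.fst (Poly.fst Poly.id))
    exact Poly.or (Poly.not (Poly.decide_lt hi hj))
      (Poly.not (Poly.decide_eq (Poly.getElem? hE' hi) (Poly.getElem? hE' hj)))
  have h2 : Poly (fun p : Inst × List (ℕ × ℕ) =>
      p.1.2.all fun e => decide (e.1 < e.2) && decide (e.2 < p.1.1)) := by
    refine Poly.all (p := fun (p : Inst × List (ℕ × ℕ)) (e : ℕ × ℕ) =>
      decide (e.1 < e.2) && decide (e.2 < p.1.1)) hE ?_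
    exact Poly.and (Poly.decide_lt (Poly.fst (Poly.snd Poly.id)) (Poly.snd (Poly.snd Poly.id)))
      (Poly.decide_lt (Poly.snd (Poly.snd Poly.id)) (hn.comp (Poly.fst Poly.id)))
  have h3 : Poly (fun p : Inst × List (ℕ × ℕ) => decide (0 < p.1.1)) :=
    Poly.decide_lt (NPC.Poly.const 0) hn
  have h4 : Poly (fun p : Inst × List (ℕ × ℕ) => decide (p.1.1 ≤ p.1.2.length + 1)) :=
    Poly.decide_le hn (Poly.succ (Poly.length hE))
  have hu : UPoly (fun p : Inst × List (ℕ × ℕ) => min p.1.1 (p.1.2.length + 1)) :=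
    UPoly.of_le (Poly.min hn (Poly.succ (Poly.length hE)))
      (UPoly.add (UPoly.length hE) (UPoly.const 1)) (fun a => min_le_right _ _)
  have h5 : Poly (fun p : Inst × List (ℕ × ℕ) =>
      (List.range (min p.1.1 (p.1.2.length + 1))).all fun x => decide (x = 0) ||
      ((decide ((x, pa p.2 x) ∈ p.1.2) || decide ((pa p.2 x, x) ∈ p.1.2)) &&
        decide (lv p.2 (pa p.2 x) < lv p.2 x))) := by
    refine Poly.all (p := fun (p : Inst × List (ℕ × ℕ)) (x : ℕ) => decide (x = 0) ||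
      ((decide ((x, pa p.2 x) ∈ p.1.2) || decide ((pa p.2 x, x) ∈ p.1.2)) &&
        decide (lv p.2 (pa p.2 x) < lv p.2 x))) hu.range ?_
    have hx : Poly (fun y : (Inst × List (ℕ × ℕ)) × ℕ => y.2) := Poly.snd Poly.id
    have hw' : Poly (fun y : (Inst × List (ℕ × ℕ)) × ℕ => y.1.2) := hw.comp (Poly.fst Poly.id)
    have hE' : Poly (fun y : (Inst × List (ℕ × ℕ)) × ℕ => y.1.1.2) := hE.comp (Poly.fst Poly.id)
    have hpa : Poly (fun y : (Inst × List (ℕ × ℕ)) × ℕ => pa y.1.2 y.2) := poly_pa hw' hx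
    exact Poly.or (Poly.decide_eq hx (NPC.Poly.const 0))
      (Poly.and (Poly.or
        ((Poly.decide_mem (Poly.pair hx hpa) hE').congr fun _ => decide_eq_decide.2 Iff.rfl)
        ((Poly.decide_mem (Poly.pair hpa hx) hE').congr fun _ => decide_eq_decide.2 Iff.rfl))
        (Poly.decide_lt (poly_lv hw' hpa) (poly_lv hw' hx)))
  exact Poly.and h1 (Poly.and h2 (Poly.and h3 (Poly.and h4 h5)))

/-- meaning of the test -/
theorem tst_iff (I : Inst) (w : List (ℕ × ℕ)) : tst (I, w) = true ↔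
    I.2.Nodup ∧ (∀ e ∈ I.2, e.1 < e.2 ∧ e.2 < I.1) ∧ 0 < I.1 ∧ I.1 ≤ I.2.length + 1 ∧
      ∀ x, x < I.1 → x < I.2.length + 1 → x = 0 ∨
        (((x, pa w x) ∈ I.2 ∨ (pa w x, x) ∈ I.2) ∧ lv w (pa w x) < lv w x) := by
  unfold tst
  simp only [Bool.and_eq_true, List.all_eq_true, List.mem_range, Bool.or_eq_true,
    Bool.not_eq_true', decide_eq_true_eq, decide_eq_false_iff_not, lt_min_iff, Prod.forall]
  rw [List.nodup_iff_getElem?_ne_getElem?]
  constructor
  · rintro ⟨h1, h2, h3, h4, h5⟩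
    refine ⟨fun i j hij hj => ?_, h2, h3, h4, fun x hx1 hx2 => h5 x ⟨hx1, hx2⟩⟩
    rcases h1 j hj i (hij.trans hj) with h | h
    · exact absurd hij h
    · exact h
  · rintro ⟨h1, h2, h3, h4, h5⟩
    refine ⟨fun j hj i hi => ?_, h2, h3, h4, fun x hx => h5 x hx.1 hx.2⟩
    by_cases hij : i < j
    · exact Or.inr (h1 i j hij hj)
    · exact Or.inl hij

theorem adj_iff (I : Inst) (h : ∀ e ∈ I.2, e.1 < e.2 ∧ e.2 < I.1) (x y : Fin I.1) :
    (graphOf I).Adj x y ↔ ((x : ℕ), (y : ℕ)) ∈ I.2 ∨ ((y : ℕ), (x : ℕ)) ∈ I.2 := by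
  unfold graphOf
  rw [SimpleGraph.fromRel_adj]
  constructor
  · exact fun h => h.2
  · intro h1
    refine ⟨?_, h1⟩
    rintro rfl
    rcases h1 with h1 | h1
    · exact absurd (h _ h1).1 (lt_irrefl _)
    · exact absurd (h _ h1).1 (lt_irrefl _)

/-- a connected graph has at least `n - 1` edges -/
theorem edges (I : Inst) (hV : Valid I) : I.1 ≤ I.2.length + 1 := by
  classical
  obtain ⟨-, h2, h3⟩ := hV
  have h4 := h3.card_vert_le_card_edgeSet_add_one
  rw [Nat.card_eq_fintype_card, Fintype.card_fin] at h4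
  have h5 : Nat.card (graphOf I).edgeSet ≤ I.2.length := by
    let S : Finset (Sym2 ℕ) := I.2.toFinset.image fun e => s(e.1, e.2)
    have hS : S.card ≤ I.2.length :=
      Finset.card_image_le.trans (List.toFinset_card_le _)
    have hinj : Function.Injective (Sym2.map (Fin.val : Fin I.1 → ℕ)) :=
      Sym2.map.injective Fin.val_injective
    have hmap : ∀ e ∈ (graphOf I).edgeSet, Sym2.map (Fin.val : Fin I.1 → ℕ) e ∈ S := by
      intro e he
      induction e using Sym2.ind with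
      | _ x y =>
        rw [SimpleGraph.mem_edgeSet, adj_iff I h2] at he
        rw [Sym2.map_mk]
        rcases he with he | he
        · exact Finset.mem_image.2 ⟨_, List.mem_toFinset.2 he, rfl⟩
        · exact Finset.mem_image.2 ⟨_, List.mem_toFinset.2 he, Sym2.eq_swap⟩
    rw [Nat.card_eq_fintype_card, ← SimpleGraph.edgeFinset_card]
    refine (Finset.card_le_card_of_injOn (Sym2.map (Fin.val : Fin I.1 → ℕ)) ?_
      hinj.injOn).trans hS
    intro e he
    exact hmap e (SimpleGraph.mem_edgeFinset.1 he)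
  omega

theorem conn_of (I : Inst) (w : List (ℕ × ℕ)) (h2 : ∀ e ∈ I.2, e.1 < e.2 ∧ e.2 < I.1)
    (h3 : 0 < I.1) (h4 : I.1 ≤ I.2.length + 1)
    (h5 : ∀ x, x < I.1 → x < I.2.length + 1 → x = 0 ∨
        (((x, pa w x) ∈ I.2 ∨ (pa w x, x) ∈ I.2) ∧ lv w (pa w x) < lv w x)) :
    (graphOf I).Connected := by
  rw [SimpleGraph.connected_iff_exists_forall_reachable]
  refine ⟨⟨0, h3⟩, ?_⟩
  have key : ∀ (k : ℕ) (x : Fin I.1), lv w x ≤ k → (graphOf I).Reachable ⟨0, h3⟩ x := by
    intro k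
    induction k with
    | zero =>
      intro x hx
      rcases h5 x x.2 (by have := x.2; omega) with h | h
      · have : x = ⟨0, h3⟩ := Fin.ext h
        rw [this]
      · exact absurd h.2 (by omega)
    | succ k ih =>
      intro x hx
      rcases h5 x x.2 (by have := x.2; omega) with h | h
      · have : x = ⟨0, h3⟩ := Fin.ext h
        rw [this]
      · have hlt : pa w x < I.1 := by
          rcases h.1 with h1 | h1
          · exact (h2 _ h1).2
          · exact (h2 _ h1).1.trans (h2 _ h1).2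
        have hr := ih ⟨pa w x, hlt⟩ (by
          show lv w (pa w x) ≤ k
          omega)
        refine hr.trans (SimpleGraph.Adj.reachable ?_)
        rw [adj_iff I h2]
        exact h.1.symm
  intro x
  exact key _ x le_rfl

theorem cert_of (I : Inst) (hV : Valid I) : ∃ w : List (ℕ × ℕ),
    sz w ≤ I.1 * (8 * I.1 + 4) + 1 ∧
    ∀ x, x < I.1 → x = 0 ∨
        (((x, pa w x) ∈ I.2 ∨ (pa w x, x) ∈ I.2) ∧ lv w (pa w x) < lv w x) := by
  classical
  obtain ⟨-, h2, h3⟩ := hV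
  have h0 : 0 < I.1 := by
    obtain ⟨x⟩ := h3.nonempty
    exact x.pos
  set G := graphOf I with hG
  have hd : ∀ x : Fin I.1, G.dist x ⟨0, h0⟩ < I.1 := by
    intro x
    obtain ⟨p⟩ := h3.preconnected x ⟨0, h0⟩
    have h4 := (p.toPath).2.length_lt
    rw [Fintype.card_fin] at h4
    exact (SimpleGraph.dist_le _).trans_lt h4
  have hp : ∀ x : Fin I.1, ∃ y : Fin I.1, x ≠ ⟨0, h0⟩ → G.Adj x y ∧
      G.dist y ⟨0, h0⟩ < G.dist x ⟨0, h0⟩ := by
    intro x
    by_cases hx : x = ⟨0, h0⟩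
    · exact ⟨x, fun h => absurd hx h⟩
    · obtain ⟨p, hp⟩ := h3.exists_walk_length_eq_dist x ⟨0, h0⟩
      cases p with
      | nil => exact absurd rfl hx
      | @cons _ y _ hxy q =>
        refine ⟨y, fun _ => ⟨hxy, ?_⟩⟩
        have h4 := SimpleGraph.dist_le q
        rw [SimpleGraph.Walk.length_cons] at hp
        omega
  choose f hf using hp
  set w : List (ℕ × ℕ) := List.ofFn fun x : Fin I.1 => ((f x : ℕ), G.dist x ⟨0, h0⟩) with hw
  have hget : ∀ x : Fin I.1, w.getD x (0, 0) = ((f x : ℕ), G.dist x ⟨0, h0⟩) := by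
    intro x
    rw [hw, List.getD_eq_getElem?_getD, List.getElem?_ofFn]
    simp
  refine ⟨w, ?_, fun x hx => ?_⟩
  · have h4 := sz_le_length_mul w (8 * I.1 + 3) (by
      intro e he
      rw [hw, List.mem_ofFn] at he
      obtain ⟨x, rfl⟩ := he
      rw [sz_pair]
      have e1 := sz_nat_le (f x : ℕ)
      have e2 := sz_nat_le (G.dist x ⟨0, h0⟩)
      have e3 := Poly.size_le_self (f x : ℕ)
      have e4 := Poly.size_le_self (G.dist x ⟨0, h0⟩)
      have e5 := hd x
      have e6 := (f x).2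
      omega)
    rw [hw, List.length_ofFn, ← hw] at h4
    exact h4
  · by_cases hx0 : x = 0
    · exact Or.inl hx0
    · right
      have hne : (⟨x, hx⟩ : Fin I.1) ≠ ⟨0, h0⟩ := fun h => hx0 (Fin.ext_iff.1 h)
      obtain ⟨h4, h5⟩ := hf ⟨x, hx⟩ hne
      have e1 : pa w x = (f ⟨x, hx⟩ : ℕ) := by
        unfold pa
        rw [hget ⟨x, hx⟩]
      have e2 : lv w x = G.dist ⟨x, hx⟩ ⟨0, h0⟩ := by
        unfold lv
        rw [hget ⟨x, hx⟩]
      have e3 : lv w (f ⟨x, hx⟩ : ℕ) = G.dist (f ⟨x, hx⟩) ⟨0, h0⟩ := by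
        unfold lv
        rw [hget (f ⟨x, hx⟩)]
      rw [e1, e2, e3]
      exact ⟨(adj_iff I h2 _ _).1 h4, h5⟩

theorem proof_VNP : VNP := by
  refine ⟨?_, edges⟩
  refine inNPP_of (β := List (ℕ × ℕ)) (R := tst) poly_tst
    ((Polynomial.X + 1) * (8 * (Polynomial.X + 1) + 4) + 1) fun I => ?_
  constructor
  · intro hV
    obtain ⟨w, hw1, hw2⟩ := cert_of I hV
    have hE := edges I hV
    refine ⟨w, ?_, ?_⟩
    · have h1 : I.2.length < sz I := by
        obtain ⟨n, E⟩ := I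
        have := length_lt_sz E
        rw [sz_pair]
        simp only
        omega
      have h2 : I.1 ≤ sz I + 1 := by omega
      simp only [Polynomial.eval_add, Polynomial.eval_mul, Polynomial.eval_X,
        Polynomial.eval_one, Polynomial.eval_ofNat]
      calc sz w ≤ I.1 * (8 * I.1 + 4) + 1 := hw1
        _ ≤ (sz I + 1) * (8 * (sz I + 1) + 4) + 1 := by gcongr
    · rw [tst_iff]
      refine ⟨hV.1, hV.2.1, ?_, hE, fun x hx _ => hw2 x hx⟩
      obtain ⟨x⟩ := hV.2.2.nonempty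
      exact x.pos
  · rintro ⟨w, -, hw⟩
    rw [tst_iff] at hw
    obtain ⟨h1, h2, h3, h4, h5⟩ := hw
    exact ⟨h1, h2, conn_of I w h2 h3 h4 h5⟩

end Pool.Agent.W214.TP
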